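import Mathlib

set_option autoImplicit false

open Set Filter Topology

namespace Pool.Agent.TH644.QT

/-- the half disc coordinate -/
noncomputable def NN (m : ℂ) : ℂ := -Complex.I * ((m - 1) / (m + 1))

/-- from the quadrant coordinate to the half strip -/
noncomputable def zt (c : ℝ) (m : ℂ) : ℂ :=
  ((-(2 * c / Real.pi) : ℝ) : ℂ) * Complex.log (NN m)

lemma add_one_ne {m : ℂ} (h : 0 < m.re) : m + 1 ≠ 0 := by
  intro h0
  have := congrArg Complex.re h0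
  simp at this
  linarith

lemma NN_norm (m : ℂ) : ‖NN m‖ = ‖m - 1‖ / ‖m + 1‖ := by
  simp [NN]

lemma NN_re (m : ℂ) : (NN m).re = 2 * m.im / Complex.normSq (m + 1) := by
  unfold NN
  rw [Complex.mul_re, Complex.div_re, Complex.div_im]
  simp
  ring

lemma NN_re_nonneg {m : ℂ} (h : 0 ≤ m.im) : 0 ≤ (NN m).re := by
  rw [NN_re]
  exact div_nonneg (by linarith) (Complex.normSq_nonneg _)

lemma NN_ne_zero {m : ℂ} (h : 0 < m.re) (h1 : m ≠ 1) : NN m ≠ 0 := by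
  intro h2
  have h3 : ‖m - 1‖ / ‖m + 1‖ = 0 := by rw [← NN_norm, h2, norm_zero]
  rcases div_eq_zero_iff.1 h3 with h4 | h4
  · exact h1 (sub_eq_zero.1 (norm_eq_zero.1 h4))
  · exact add_one_ne h (norm_eq_zero.1 h4)

lemma NN_slit {m : ℂ} (h : 0 < m.re) (h1 : 0 ≤ m.im) (h2 : m ≠ 1) : NN m ∈ Complex.slitPlane := by
  rw [Complex.mem_slitPlane_iff]
  by_contra hcon
  push Not at hcon
  obtain ⟨h3, h4⟩ := hcon
  have h5 := NN_re_nonneg h1
  exact NN_ne_zero h h2 (Complex.ext (le_antisymm h3 h5) h4)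

lemma zt_re (c : ℝ) (m : ℂ) : (zt c m).re = -(2 * c / Real.pi) * Real.log ‖NN m‖ := by
  unfold zt
  rw [Complex.re_ofReal_mul, Complex.log_re]

lemma zt_im (c : ℝ) (m : ℂ) : (zt c m).im = -(2 * c / Real.pi) * Complex.arg (NN m) := by
  unfold zt
  rw [Complex.im_ofReal_mul, Complex.log_im]

lemma abs_zt_im {c : ℝ} (hc : 0 < c) {m : ℂ} (h1 : 0 ≤ m.im) : |(zt c m).im| ≤ c := by
  rw [zt_im, abs_mul, abs_neg, abs_of_pos (by positivity)]
  have h2 : |Complex.arg (NN m)| ≤ Real.pi / 2 := by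
    rw [Complex.abs_arg_le_pi_div_two_iff]
    exact NN_re_nonneg h1
  calc 2 * c / Real.pi * |Complex.arg (NN m)| ≤ 2 * c / Real.pi * (Real.pi / 2) := by gcongr
    _ = c := by field_simp

lemma zt_one (c : ℝ) : zt c 1 = 0 := by
  simp [zt, NN]

lemma diff_zt (c : ℝ) {m : ℂ} (h : 0 < m.re) (h1 : 0 ≤ m.im) (h2 : m ≠ 1) :
    DifferentiableAt ℂ (zt c) m := by
  have h3 : DifferentiableAt ℂ NN m := by
    have h4 : DifferentiableAt ℂ (fun m : ℂ => (m - 1) / (m + 1)) m :=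
      DifferentiableAt.fun_div (by fun_prop) (by fun_prop) (add_one_ne h)
    exact h4.const_mul (-Complex.I)
  unfold zt
  exact (h3.clog (NN_slit h h1 h2)).const_mul _

/-- the closed conditions -/
def Cl (r ρ : ℝ) : Set ℂ := {m | 0 ≤ m.im ∧ r * ‖m + 1‖ ≤ ‖m - 1‖ ∧ ‖m - 1‖ ≤ ρ * ‖m + 1‖}

lemma isClosed_Cl (r ρ : ℝ) : IsClosed (Cl r ρ) := by
  have h : Cl r ρ = {m : ℂ | 0 ≤ m.im} ∩ ({m : ℂ | r * ‖m + 1‖ ≤ ‖m - 1‖} ∩
      {m : ℂ | ‖m - 1‖ ≤ ρ * ‖m + 1‖}) := rfl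
  rw [h]
  refine (isClosed_le continuous_const Complex.continuous_im).inter
    ((isClosed_le ?_ ?_).inter (isClosed_le ?_ ?_)) <;> fun_prop

lemma Cl_re {r ρ : ℝ} (h0 : 0 ≤ ρ) (hρ : ρ < 1) {m : ℂ} (h : m ∈ Cl r ρ) : 0 < m.re := by
  have h1 := h.2.2
  have h2 : ‖m - 1‖ ^ 2 ≤ ρ ^ 2 * ‖m + 1‖ ^ 2 := by
    rw [← mul_pow]
    gcongr
  rw [← Complex.normSq_eq_norm_sq, ← Complex.normSq_eq_norm_sq, Complex.normSq_apply,
    Complex.normSq_apply] at h2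
  simp only [Complex.sub_re, Complex.one_re, Complex.sub_im, Complex.one_im, sub_zero,
    Complex.add_re, Complex.add_im, add_zero] at h2
  have h3 : ρ ^ 2 < 1 := by nlinarith
  by_contra hcon
  push Not at hcon
  nlinarith [mul_nonneg (sub_nonneg.2 h3.le) (sq_nonneg m.re),
    mul_nonneg (sub_nonneg.2 h3.le) (sq_nonneg m.im), sq_nonneg ρ]

lemma Cl_ne_one {r ρ : ℝ} (hr : 0 < r) {m : ℂ} (h : m ∈ Cl r ρ) : m ≠ 1 := by
  rintro rfl
  have := h.2.1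
  norm_num at this
  linarith

lemma Cl_bound {r ρ : ℝ} (hρ : ρ < 1) {m : ℂ} (h : m ∈ Cl r ρ) : ‖m‖ ≤ (1 + ρ) / (1 - ρ) := by
  have h1 := h.2.2
  have h2 : ‖m‖ ≤ ‖m - 1‖ + 1 := by
    have := norm_add_le (m - 1) 1
    simpa using this
  have h3 : ‖m + 1‖ ≤ ‖m‖ + 1 := by simpa using norm_add_le m 1
  rw [le_div_iff₀ (by linarith)]
  by_cases h0 : 0 ≤ ρ
  · nlinarith
  · have h4 : ρ * ‖m + 1‖ ≤ 0 := mul_nonpos_of_nonpos_of_nonneg (by linarith) (norm_nonneg _)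
    have h5 : ‖m - 1‖ = 0 := le_antisymm (by linarith) (norm_nonneg _)
    have h6 : m = 1 := sub_eq_zero.1 (norm_eq_zero.1 h5)
    have h7 : ρ * 2 ≥ 0 := by
      have := h1
      rw [h6] at this
      norm_num at this
      linarith
    linarith

/-- bounds of the real part give the closed conditions -/
lemma mem_Cl {c δ B : ℝ} (hc : 0 < c) {m : ℂ} (h : 0 < m.re) (h1 : 0 ≤ m.im)
    (hδ : δ ≤ (zt c m).re) (hδ0 : 0 < δ) (hB : (zt c m).re ≤ B) :
    m ∈ Cl (Real.exp (-(Real.pi / (2 * c) * B))) (Real.exp (-(Real.pi / (2 * c) * δ))) := by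
  have hm1 : m ≠ 1 := by
    rintro rfl
    rw [zt_one] at hδ
    simp at hδ
    linarith
  have hN : 0 < ‖NN m‖ := norm_pos_iff.2 (NN_ne_zero h hm1)
  have hp : 0 < ‖m + 1‖ := norm_pos_iff.2 (add_one_ne h)
  rw [zt_re] at hδ hB
  have hpi := Real.pi_pos
  have e1 : Real.log ‖NN m‖ ≤ -(Real.pi / (2 * c) * δ) := by
    have h5 : Real.pi / (2 * c) * δ ≤ Real.pi / (2 * c) * (-(2 * c / Real.pi) * Real.log ‖NN m‖) := by
      gcongr
    have h6 : Real.pi / (2 * c) * (-(2 * c / Real.pi) * Real.log ‖NN m‖) = - Real.log ‖NN m‖ := by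
      field_simp
    linarith
  have e2 : -(Real.pi / (2 * c) * B) ≤ Real.log ‖NN m‖ := by
    have h5 : Real.pi / (2 * c) * (-(2 * c / Real.pi) * Real.log ‖NN m‖) ≤ Real.pi / (2 * c) * B := by
      gcongr
    have h6 : Real.pi / (2 * c) * (-(2 * c / Real.pi) * Real.log ‖NN m‖) = - Real.log ‖NN m‖ := by
      field_simp
    linarith
  refine ⟨h1, ?_, ?_⟩
  · have := Real.exp_le_exp.2 e2
    rw [Real.exp_log hN, NN_norm, le_div_iff₀ hp] at this
    exact this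
  · have := Real.exp_le_exp.2 e1
    rw [Real.exp_log hN, NN_norm, div_le_iff₀ hp] at this
    exact this

end Pool.Agent.TH644.QT
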