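import Pool.Agent.Helper140.TT1
import Pool.Agent.TH644.QT.A

set_option autoImplicit false

open Set Filter Topology Pool.Agent.Helper140.TT

namespace Pool.Agent.TH644.QT

variable {n : ℕ}

/-- the hypotheses on a point `z` with quadrant coordinates `m` for the indices in `J` -/
structure Pt (c τ : Fin n → ℝ) (W : Set (Fin n → ℝ)) (J : Finset (Fin n)) (z m : Fin n → ℂ) :
    Prop where
  re : ∀ j ∈ J, 0 < (m j).re
  im : ∀ j ∈ J, 0 ≤ (m j).im
  eq : ∀ j ∈ J, z j = zt (c j) (m j) + (τ j : ℂ)
  box : ∀ j, |(z j).im| ≤ c j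
  mem : (fun j => (z j).re) ∈ W
  prod : (∏ j ∈ J, m j).re = 0

lemma erase_pt {c τ : Fin n → ℝ} {W : Set (Fin n → ℝ)} {J : Finset (Fin n)} {z m : Fin n → ℂ}
    (h : Pt c τ W J z m) {j : Fin n} (hj : j ∈ J) (h0 : (m j).im = 0) :
    Pt c τ W (J.erase j) z m := by
  refine ⟨fun i hi => h.re i (Finset.mem_of_mem_erase hi), fun i hi => h.im i
    (Finset.mem_of_mem_erase hi), fun i hi => h.eq i (Finset.mem_of_mem_erase hi), h.box, h.mem, ?_⟩
  have h1 := h.prod
  rw [← Finset.mul_prod_erase J m hj, Complex.mul_re, h0, zero_mul, sub_zero] at h1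
  exact (mul_eq_zero.1 h1).resolve_left (h.re j hj).ne'

theorem key {c : Fin n → ℝ} (hc : ∀ j, 0 < c j) {J₀ : Finset (Fin n)} {a τ : Fin n → ℝ}
    (hτ : ∀ j ∈ J₀, τ j ≤ a j)
    {W : Set (Fin n → ℝ)} (hWo : IsOpen W) {δ : ℝ} (hδ : 0 < δ)
    (hWδ : ∀ x ∈ W, ∀ j ∈ J₀, a j + δ ≤ x j) {B : ℝ} (hWB : ∀ x ∈ W, ∀ j, x j - τ j ≤ B)
    {G : (Fin n → ℂ) → ℂ} (hG : Differentiable ℂ G) {M : ℝ}
    (hM : ∀ t ∈ tubeBox (frontier W) c, ‖G t‖ ≤ M) :
    ∀ (k : ℕ) (J : Finset (Fin n)), J ⊆ J₀ → J.card = k → ∀ z m : Fin n → ℂ, Pt c τ W J z m →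
      ‖G z‖ ≤ M := by
  intro k
  induction k using Nat.strong_induction_on with
  | _ k ih =>
  intro J hJ0 hJ
  have caseA : ∀ z m : Fin n → ℂ, Pt c τ W J z m → (∃ j ∈ J, (m j).im = 0) → ‖G z‖ ≤ M := by
    rintro z m h ⟨j, hj, h0⟩
    refine ih (J.erase j).card ?_ (J.erase j) ((Finset.erase_subset _ _).trans hJ0) rfl z m
      (erase_pt h hj h0)
    rw [← hJ]
    exact Finset.card_erase_lt_of_mem hj
  intro z m h
  by_cases hcase : ∃ j ∈ J, (m j).im = 0
  · exact caseA z m h hcase
  push Not at hcase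
  have himpos : ∀ j ∈ J, 0 < (m j).im := fun j hj => lt_of_le_of_ne (h.im j hj) (hcase j hj).symm
  have hcard : 1 < J.card := by
    by_contra hle
    push Not at hle
    have h1 := h.prod
    rcases Nat.le_one_iff_eq_zero_or_eq_one.1 hle with h2 | h2
    · rw [Finset.card_eq_zero.1 h2] at h1
      simp at h1
    · obtain ⟨j, hj⟩ := Finset.card_eq_one.1 h2
      have h3 := h.re j (by rw [hj]; exact Finset.mem_singleton_self j)
      rw [hj, Finset.prod_singleton] at h1
      linarith
  obtain ⟨p, hp, q, hq, hpq⟩ := Finset.one_lt_card.1 hcard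
  obtain ⟨μ, hμ⟩ : ∃ μ, μ = m p * m q := ⟨_, rfl⟩
  have hmp0 : m p ≠ 0 := fun h0 => by
    have := h.re p hp
    rw [h0] at this
    simp at this
  have hmq0 : m q ≠ 0 := fun h0 => by
    have := h.re q hq
    rw [h0] at this
    simp at this
  -- the curve
  let m' : ℂ → Fin n → ℂ := fun w => Function.update (Function.update m p w) q (μ / w)
  let z' : ℂ → Fin n → ℂ := fun w => Function.update (Function.update z p (zt (c p) w + (τ p : ℂ))) q
    (zt (c q) (μ / w) + (τ q : ℂ))
  have m'p : ∀ w, m' w p = w := fun w => by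
    simp only [m']
    rw [Function.update_of_ne hpq, Function.update_self]
  have m'q : ∀ w, m' w q = μ / w := fun w => by
    simp only [m']
    rw [Function.update_self]
  have m'o : ∀ w j, j ≠ p → j ≠ q → m' w j = m j := fun w j h1 h2 => by
    simp only [m']
    rw [Function.update_of_ne h2, Function.update_of_ne h1]
  have z'p : ∀ w, z' w p = zt (c p) w + (τ p : ℂ) := fun w => by
    simp only [z']
    rw [Function.update_of_ne hpq, Function.update_self]
  have z'q : ∀ w, z' w q = zt (c q) (μ / w) + (τ q : ℂ) := fun w => by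
    simp only [z']
    rw [Function.update_self]
  have z'o : ∀ w j, j ≠ p → j ≠ q → z' w j = z j := fun w j h1 h2 => by
    simp only [z']
    rw [Function.update_of_ne h2, Function.update_of_ne h1]
  let V : Set ℂ := {w | 0 < w.re ∧ 0 < w.im ∧ 0 < (μ / w).re ∧ 0 < (μ / w).im ∧
    (fun j => (z' w j).re) ∈ W}
  obtain ⟨ρp, hρp⟩ : ∃ ρ, ρ = Real.exp (-(Real.pi / (2 * c p) * δ)) := ⟨_, rfl⟩
  obtain ⟨ρq, hρq⟩ : ∃ ρ, ρ = Real.exp (-(Real.pi / (2 * c q) * δ)) := ⟨_, rfl⟩
  obtain ⟨rp, hrp⟩ : ∃ ρ, ρ = Real.exp (-(Real.pi / (2 * c p) * B)) := ⟨_, rfl⟩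
  obtain ⟨rq, hrq⟩ : ∃ ρ, ρ = Real.exp (-(Real.pi / (2 * c q) * B)) := ⟨_, rfl⟩
  have hpi := Real.pi_pos
  have hcp := hc p
  have hcq := hc q
  have hρp1 : ρp < 1 := by
    rw [hρp, Real.exp_lt_one_iff, neg_neg_iff_pos]
    positivity
  have hρq1 : ρq < 1 := by
    rw [hρq, Real.exp_lt_one_iff, neg_neg_iff_pos]
    positivity
  have hρp0 : 0 ≤ ρp := by rw [hρp]; positivity
  have hρq0 : 0 ≤ ρq := by rw [hρq]; positivity
  have hrp0 : 0 < rp := by rw [hrp]; positivity
  have hrq0 : 0 < rq := by rw [hrq]; positivity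
  have reofp : ∀ w, (z' w p).re = (zt (c p) w).re + τ p := fun w => by rw [z'p]; simp
  have reofq : ∀ w, (z' w q).re = (zt (c q) (μ / w)).re + τ q := fun w => by rw [z'q]; simp
  have hVp : V ⊆ Cl rp ρp := by
    rintro w ⟨h1, h2, h3, h4, h5⟩
    have h6 := hWδ _ h5 p (hJ0 hp)
    have h7 := hWB _ h5 p
    simp only [reofp] at h6 h7
    rw [hrp, hρp]
    refine mem_Cl hcp h1 h2.le ?_ hδ ?_
    · have := hτ p (hJ0 hp)
      linarith
    · linarith
  have hVq : ∀ w ∈ V, μ / w ∈ Cl rq ρq := by
    rintro w ⟨h1, h2, h3, h4, h5⟩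
    have h6 := hWδ _ h5 q (hJ0 hq)
    have h7 := hWB _ h5 q
    simp only [reofq] at h6 h7
    rw [hrq, hρq]
    refine mem_Cl hcq h3 h4.le ?_ hδ ?_
    · have := hτ q (hJ0 hq)
      linarith
    · linarith
  have hclp : ∀ w ∈ closure V, w ∈ Cl rp ρp := fun w hw =>
    (isClosed_Cl rp ρp).closure_subset_iff.2 hVp hw
  have hwre : ∀ w ∈ closure V, 0 < w.re := fun w hw => Cl_re hρp0 hρp1 (hclp w hw)
  have hw0 : ∀ w ∈ closure V, w ≠ 0 := fun w hw h0 => by
    have := hwre w hw
    rw [h0] at this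
    simp at this
  have hdiv : ∀ w, w ≠ 0 → DifferentiableAt ℂ (fun w : ℂ => μ / w) w := fun w h1 =>
    DifferentiableAt.fun_div (differentiableAt_const _) differentiableAt_id h1
  have hclq : ∀ w ∈ closure V, μ / w ∈ Cl rq ρq := fun w hw => by
    have h1 := ((hdiv w (hw0 w hw)).continuousAt.continuousWithinAt).mem_closure hw hVq
    rwa [(isClosed_Cl rq ρq).closure_eq] at h1
  have hqre : ∀ w ∈ closure V, 0 < (μ / w).re := fun w hw => Cl_re hρq0 hρq1 (hclq w hw)
  have hdp : ∀ w ∈ closure V, DifferentiableAt ℂ (zt (c p)) w := fun w hw =>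
    diff_zt _ (hwre w hw) (hclp w hw).1 (Cl_ne_one hrp0 (hclp w hw))
  have hdq : ∀ w ∈ closure V, DifferentiableAt ℂ (fun w => zt (c q) (μ / w)) w := fun w hw =>
    DifferentiableAt.comp (g := zt (c q)) w
      (diff_zt _ (hqre w hw) (hclq w hw).1 (Cl_ne_one hrq0 (hclq w hw))) (hdiv w (hw0 w hw))
  have hdz : ∀ w ∈ closure V, DifferentiableAt ℂ z' w := by
    intro w hw
    rw [differentiableAt_pi]
    intro j
    by_cases h1 : j = q
    · subst h1
      simp only [z'q]
      exact (hdq w hw).add_const _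
    · by_cases h2 : j = p
      · subst h2
        simp only [z'p]
        exact (hdp w hw).add_const _
      · simp only [z'o _ j h2 h1]
        exact differentiableAt_const _
  have hcz : ∀ w ∈ closure V, ContinuousAt (fun w => (fun j => (z' w j).re : Fin n → ℝ)) w := by
    intro w hw
    exact continuous_reV.continuousAt.comp (hdz w hw).continuousAt
  have hclW : ∀ w ∈ closure V, (fun j => (z' w j).re) ∈ closure W := fun w hw =>
    (hcz w hw).continuousWithinAt.mem_closure hw fun v hv => hv.2.2.2.2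
  have hbox : ∀ w ∈ closure V, ∀ j, |(z' w j).im| ≤ c j := by
    intro w hw j
    by_cases h1 : j = q
    · subst h1
      rw [z'q]
      simpa using abs_zt_im hcq (hclq w hw).1
    · by_cases h2 : j = p
      · subst h2
        rw [z'p]
        simpa using abs_zt_im hcp (hclp w hw).1
      · rw [z'o _ j h2 h1]
        exact h.box j
  have hprod : ∀ w, w ≠ 0 → ∏ j ∈ J, m' w j = ∏ j ∈ J, m j := by
    intro w hw
    rw [← Finset.mul_prod_erase J (m' w) hp, ← Finset.mul_prod_erase J m hp,
      ← Finset.mul_prod_erase (J.erase p) (m' w) (Finset.mem_erase.2 ⟨hpq.symm, hq⟩),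
      ← Finset.mul_prod_erase (J.erase p) m (Finset.mem_erase.2 ⟨hpq.symm, hq⟩), ← mul_assoc,
      ← mul_assoc, m'p, m'q]
    congr 1
    · rw [mul_div_cancel₀ _ hw, hμ]
    · refine Finset.prod_congr rfl fun j hj => ?_
      have h1 := Finset.mem_erase.1 hj
      exact m'o w j (Finset.mem_erase.1 h1.2).1 h1.1
  have hfr : ∀ w ∈ frontier V, ‖G (z' w)‖ ≤ M := by
    intro w hw
    have hwc : w ∈ closure V := frontier_subset_closure hw
    by_cases hW : (fun j => (z' w j).re) ∈ W
    · have hPt : Pt c τ W J (z' w) (m' w) := by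
        refine ⟨fun j hj => ?_, fun j hj => ?_, fun j hj => ?_, hbox w hwc, hW, ?_⟩
        · by_cases h1 : j = q
          · subst h1
            rw [m'q]
            exact hqre w hwc
          · by_cases h2 : j = p
            · subst h2
              rw [m'p]
              exact hwre w hwc
            · rw [m'o _ j h2 h1]
              exact h.re j hj
        · by_cases h1 : j = q
          · subst h1
            rw [m'q]
            exact (hclq w hwc).1
          · by_cases h2 : j = p
            · subst h2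
              rw [m'p]
              exact (hclp w hwc).1
            · rw [m'o _ j h2 h1]
              exact h.im j hj
        · by_cases h1 : j = q
          · subst h1
            rw [m'q, z'q]
          · by_cases h2 : j = p
            · subst h2
              rw [m'p, z'p]
            · rw [m'o _ j h2 h1, z'o _ j h2 h1]
              exact h.eq j hj
        · rw [hprod w (hw0 w hwc)]
          exact h.prod
      refine caseA (z' w) (m' w) hPt ?_
      by_contra hcon
      push Not at hcon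
      have hi1 : 0 < w.im := by
        have h1 := hcon p hp
        rw [m'p] at h1
        exact lt_of_le_of_ne (hclp w hwc).1 h1.symm
      have hi2 : 0 < (μ / w).im := by
        have h1 := hcon q hq
        rw [m'q] at h1
        exact lt_of_le_of_ne (hclq w hwc).1 h1.symm
      have hV : V ∈ 𝓝 w := by
        have c1 := (hdiv w (hw0 w hwc)).continuousAt
        have e1 : ∀ᶠ v in 𝓝 w, 0 < v.re :=
          Complex.continuous_re.continuousAt.eventually (lt_mem_nhds (hwre w hwc))
        have e2 : ∀ᶠ v in 𝓝 w, 0 < v.im :=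
          Complex.continuous_im.continuousAt.eventually (lt_mem_nhds hi1)
        have e3 : ∀ᶠ v in 𝓝 w, 0 < (μ / v).re :=
          (Complex.continuous_re.continuousAt.comp c1).eventually (lt_mem_nhds (hqre w hwc))
        have e4 : ∀ᶠ v in 𝓝 w, 0 < (μ / v).im :=
          (Complex.continuous_im.continuousAt.comp c1).eventually (lt_mem_nhds hi2)
        have e5 : ∀ᶠ v in 𝓝 w, (fun j => (z' v j).re) ∈ W :=
          (hcz w hwc).eventually (hWo.mem_nhds hW)
        filter_upwards [e1, e2, e3, e4, e5] with v a1 a2 a3 a4 a5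
        exact ⟨a1, a2, a3, a4, a5⟩
      exact hw.2 (mem_interior_iff_mem_nhds.2 hV)
    · refine hM _ ⟨?_, hbox w hwc⟩
      rw [hWo.frontier_eq]
      exact ⟨hclW w hwc, hW⟩
  have hmV : m p ∈ V := by
    have hz' : z' (m p) = z := by
      funext j
      by_cases h1 : j = q
      · subst h1
        rw [z'q, h.eq j hq, hμ, mul_div_cancel_left₀ _ hmp0]
      · by_cases h2 : j = p
        · subst h2
          rw [z'p, h.eq j hp]
        · rw [z'o _ j h2 h1]
    have hmm : μ / m p = m q := by rw [hμ, mul_div_cancel_left₀ _ hmp0]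
    refine ⟨h.re p hp, himpos p hp, ?_, ?_, ?_⟩
    · rw [hmm]; exact h.re q hq
    · rw [hmm]; exact himpos q hq
    · rw [hz']; exact h.mem
  have hVb : Bornology.IsBounded V := by
    refine (Metric.isBounded_closedBall (x := (0 : ℂ)) (r := (1 + ρp) / (1 - ρp))).subset ?_
    intro w hw
    rw [mem_closedBall_zero_iff]
    exact Cl_bound hρp1 (hVp hw)
  have hdiff : DiffContOnCl ℂ (fun w => G (z' w)) V := by
    refine DifferentiableOn.diffContOnCl fun w hw => ?_
    exact ((hG (z' w)).comp w (hdz w hw)).differentiableWithinAt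
  have hz' : z' (m p) = z := by
    funext j
    by_cases h1 : j = q
    · subst h1
      rw [z'q, h.eq j hq, hμ, mul_div_cancel_left₀ _ hmp0]
    · by_cases h2 : j = p
      · subst h2
        rw [z'p, h.eq j hp]
      · rw [z'o _ j h2 h1]
  have := Complex.norm_le_of_forall_mem_frontier_norm_le hVb hdiff hfr (subset_closure hmV)
  simp only [hz'] at this
  exact this

end Pool.Agent.TH644.QT
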