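import Pool.Agent.Helper140.TT5
import Pool.Agent.TH644.QT.B

set_option autoImplicit false

open Set Filter Topology Pool.Agent.Helper140.TT

namespace Pool.Agent.TH644.QT

variable {n : ℕ}

/-- the sum of the arctangents -/
noncomputable def AA (J : Finset (Fin n)) (c a : Fin n → ℝ) (x : Fin n → ℝ) : ℝ :=
  ∑ j ∈ J, Real.arctan (Real.exp (-(Real.pi / (2 * c j) * (x j - a j))))

lemma continuous_AA (J : Finset (Fin n)) (c a : Fin n → ℝ) : Continuous (AA J c a) := by
  unfold AA
  refine continuous_finsetSum _ fun j _ => ?_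
  exact Real.continuous_arctan.comp (Real.continuous_exp.comp (by fun_prop))

/-- the quadrant coordinate of a real point of the half disc -/
noncomputable def mm (s : ℝ) : ℂ := (1 + (s : ℂ) * Complex.I) / (1 - (s : ℂ) * Complex.I)

lemma one_sub_ne (s : ℝ) : (1 - (s : ℂ) * Complex.I) ≠ 0 := by
  intro h
  have := congrArg Complex.re h
  simp at this

lemma mm_exp (s : ℝ) : Complex.exp (((2 * Real.arctan s : ℝ) : ℂ) * Complex.I) = mm s := by
  have h1 : Complex.exp (((Real.arctan s : ℝ) : ℂ) * Complex.I) =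
      (((1 / Real.sqrt (1 + s ^ 2) : ℝ) : ℂ)) * (1 + (s : ℂ) * Complex.I) := by
    rw [Complex.exp_mul_I, ← Complex.ofReal_cos, ← Complex.ofReal_sin, Real.cos_arctan,
      Real.sin_arctan]
    push_cast
    ring
  have h2 : (((2 * Real.arctan s : ℝ) : ℂ) * Complex.I) =
      ((Real.arctan s : ℝ) : ℂ) * Complex.I + ((Real.arctan s : ℝ) : ℂ) * Complex.I := by
    push_cast
    ring
  have h3 : (((1 / Real.sqrt (1 + s ^ 2) : ℝ) : ℂ)) * (((1 / Real.sqrt (1 + s ^ 2) : ℝ) : ℂ)) =
      ((1 / (1 + s ^ 2) : ℝ) : ℂ) := by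
    rw [← Complex.ofReal_mul]
    congr 1
    have h4 : Real.sqrt (1 + s ^ 2) * Real.sqrt (1 + s ^ 2) = 1 + s ^ 2 :=
      Real.mul_self_sqrt (by positivity)
    rw [div_mul_div_comm, h4, one_mul]
  rw [h2, Complex.exp_add, h1]
  have h5 : (1 + (s : ℂ) ^ 2) ≠ 0 := by
    have : (1 + s ^ 2 : ℝ) ≠ 0 := by positivity
    exact_mod_cast this
  have h6 : (1 - (s : ℂ) * Complex.I) * (1 + (s : ℂ) * Complex.I) = 1 + (s : ℂ) ^ 2 := by
    ring_nf
    rw [Complex.I_sq]
    ring
  unfold mm
  rw [eq_div_iff (one_sub_ne s)]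
  calc _ = (((1 / Real.sqrt (1 + s ^ 2) : ℝ) : ℂ)) * (((1 / Real.sqrt (1 + s ^ 2) : ℝ) : ℂ)) *
        ((1 - (s : ℂ) * Complex.I) * (1 + (s : ℂ) * Complex.I)) * (1 + (s : ℂ) * Complex.I) := by
        ring
    _ = _ := by
        rw [h3, h6]
        push_cast
        field_simp

lemma mm_re (s : ℝ) : (mm s).re = (1 - s ^ 2) / (1 + s ^ 2) := by
  unfold mm
  rw [Complex.div_re, Complex.normSq_apply]
  simp
  ring_nf

lemma mm_im (s : ℝ) : (mm s).im = 2 * s / (1 + s ^ 2) := by
  unfold mm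
  rw [Complex.div_im, Complex.normSq_apply]
  simp
  ring_nf

lemma NN_mm (s : ℝ) : NN (mm s) = (s : ℂ) := by
  have h := one_sub_ne s
  have h1 : mm s + 1 = 2 / (1 - (s : ℂ) * Complex.I) := by
    unfold mm
    field_simp
    ring
  have h2 : mm s - 1 = 2 * ((s : ℂ) * Complex.I) / (1 - (s : ℂ) * Complex.I) := by
    unfold mm
    field_simp
    ring
  unfold NN
  rw [h1, h2]
  have h3 : 2 * ((s : ℂ) * Complex.I) / (1 - (s : ℂ) * Complex.I) / (2 / (1 - (s : ℂ) * Complex.I)) =
      (s : ℂ) * Complex.I := by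
    field_simp
  rw [h3]
  calc -Complex.I * ((s : ℂ) * Complex.I) = -(Complex.I * Complex.I) * s := by ring
    _ = s := by rw [Complex.I_mul_I]; ring

lemma zt_mm {c : ℝ} (hc : 0 < c) (u : ℝ) :
    zt c (mm (Real.exp (-(Real.pi / (2 * c) * u)))) = (u : ℂ) := by
  unfold zt
  rw [NN_mm, ← Complex.ofReal_log (Real.exp_pos _).le, Real.log_exp, ← Complex.ofReal_mul]
  congr 1
  have := Real.pi_pos
  field_simp

lemma exists_shift (J : Finset (Fin n)) {c : Fin n → ℝ} (hc : ∀ j, 0 < c j) {a x : Fin n → ℝ}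
    (h : Real.pi / 4 < AA J c a x) : ∃ κ : ℝ, 0 ≤ κ ∧ AA J c (fun j => a j - κ) x = Real.pi / 4 := by
  have hcont : Continuous (fun κ : ℝ => AA J c (fun j => a j - κ) x) := by
    unfold AA
    refine continuous_finsetSum _ fun j _ => ?_
    exact Real.continuous_arctan.comp (Real.continuous_exp.comp (by fun_prop))
  have hlim : Tendsto (fun κ : ℝ => AA J c (fun j => a j - κ) x) atTop (𝓝 0) := by
    have h1 : Tendsto (fun κ : ℝ => AA J c (fun j => a j - κ) x) atTop (𝓝 (∑ j ∈ J, (0 : ℝ))) := by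
      unfold AA
      refine tendsto_finsetSum _ fun j _ => ?_
      have h2 : Tendsto (fun κ : ℝ => -(Real.pi / (2 * c j) * (x j - (a j - κ)))) atTop atBot := by
        refine tendsto_neg_atTop_atBot.comp ?_
        have hpos : 0 < Real.pi / (2 * c j) := by
          have := hc j
          have := Real.pi_pos
          positivity
        refine Tendsto.const_mul_atTop hpos ?_
        have : (fun κ : ℝ => x j - (a j - κ)) = fun κ => κ + (x j - a j) := by
          funext κ
          ring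
        rw [this]
        exact tendsto_atTop_add_const_right _ _ tendsto_id
      have h3 : Tendsto (fun κ : ℝ => Real.exp (-(Real.pi / (2 * c j) * (x j - (a j - κ)))))
          atTop (𝓝 0) := Real.tendsto_exp_atBot.comp h2
      have h4 := (Real.continuous_arctan.tendsto 0).comp h3
      rw [Real.arctan_zero] at h4
      exact h4
    simpa using h1
  have h5 : ∀ᶠ κ : ℝ in atTop, AA J c (fun j => a j - κ) x < Real.pi / 4 :=
    hlim.eventually (gt_mem_nhds (by have := Real.pi_pos; positivity))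
  obtain ⟨K, hK1, hK0⟩ := (h5.and (eventually_ge_atTop (0 : ℝ))).exists
  have h6 := intermediate_value_Icc' hK0 hcont.continuousOn
  have h7 : AA J c (fun j => a j - 0) x = AA J c a x := by simp
  obtain ⟨κ, hκ, hκe⟩ := h6 ⟨hK1.le, by show Real.pi / 4 ≤ AA J c (fun j => a j - 0) x; rw [h7]; exact h.le⟩
  exact ⟨κ, hκ.1, hκe⟩

lemma isOpen_Om (J : Finset (Fin n)) (a : Fin n → ℝ) :
    IsOpen {x : Fin n → ℝ | ∀ j ∈ J, a j < x j} := by
  have : {x : Fin n → ℝ | ∀ j ∈ J, a j < x j} = ⋂ j ∈ J, {x : Fin n → ℝ | a j < x j} := by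
    ext y
    simp
  rw [this]
  exact isOpen_biInter_finset fun j _ => isOpen_lt continuous_const (continuous_apply j)

theorem sepPoly_le (J : Finset (Fin n)) {c : Fin n → ℝ} (hc : ∀ j, 0 < c j) (a : Fin n → ℝ) :
    SepPoly {x : Fin n → ℝ | ∀ j ∈ J, a j < x j} c ⊆ {x | AA J c a x ≤ Real.pi / 4} := by
  rintro x ⟨W, hW, hWb, hWΩ, hxW, hsep⟩
  by_contra hcon
  rw [mem_ofPred_eq, not_le] at hcon
  obtain ⟨κ, hκ0, hκ⟩ := exists_shift J hc hcon
  refine hsep ?_
  intro p M hM
  have hΩo := isOpen_Om J a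
  have hcomp : IsCompact (closure W) := hWb.isCompact_closure
  obtain ⟨ε, hε, hεΩ⟩ := hcomp.exists_thickening_subset_open hΩo hWΩ
  have hWδ : ∀ y ∈ W, ∀ j ∈ J, a j + ε / 2 ≤ y j := by
    intro y hy j hj
    have h1 : (fun j => y j - ε / 2) ∈ Metric.thickening ε (closure W) := by
      rw [Metric.mem_thickening_iff]
      refine ⟨y, subset_closure hy, ?_⟩
      rw [dist_pi_lt_iff hε]
      intro i
      rw [Real.dist_eq]
      have : y i - ε / 2 - y i = -(ε / 2) := by ring
      rw [this, abs_neg, abs_of_pos (by positivity)]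
      linarith
    have h2 : a j < y j - ε / 2 := hεΩ h1 j hj
    linarith
  obtain ⟨B0, hB0⟩ := hWb.exists_norm_le
  have hWB : ∀ y ∈ W, ∀ j, y j - (a j - κ) ≤ B0 + ‖fun j => a j - κ‖ := by
    intro y hy j
    have h1 := (norm_le_pi_norm y j).trans (hB0 y hy)
    have h2 := norm_le_pi_norm (fun j => a j - κ) j
    rw [Real.norm_eq_abs] at h1 h2
    have h3 := le_abs_self (y j)
    have h4 := neg_abs_le (a j - κ)
    linarith
  have hxΩ : ∀ j ∈ J, a j < x j := hWΩ (subset_closure hxW)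
  refine key hc (a := a) (τ := fun j => a j - κ) (J₀ := J) (fun j _ => by simpa using hκ0) hW
    (half_pos hε) hWδ hWB (differentiable_eval p) hM _ J (Finset.Subset.refl J) rfl (fun j => (x j : ℂ))
    (fun j => mm (Real.exp (-(Real.pi / (2 * c j) * (x j - (a j - κ)))))) ?_
  have hs : ∀ j ∈ J, Real.exp (-(Real.pi / (2 * c j) * (x j - (a j - κ)))) < 1 := by
    intro j hj
    rw [Real.exp_lt_one_iff, neg_neg_iff_pos]
    have h1 := hc j
    have h2 := Real.pi_pos
    have h3 := hxΩ j hj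
    have h4 : 0 < x j - (a j - κ) := by linarith
    positivity
  refine ⟨fun j hj => ?_, fun j _ => ?_, fun j _ => ?_, fun j => ?_, ?_, ?_⟩
  · rw [mm_re]
    have h1 := hs j hj
    have h2 := Real.exp_pos (-(Real.pi / (2 * c j) * (x j - (a j - κ))))
    refine div_pos ?_ (by positivity)
    nlinarith
  · rw [mm_im]
    positivity
  · rw [zt_mm (hc j)]
    push_cast
    ring
  · simpa using (hc j).le
  · simpa using hxW
  · have h1 : ∏ j ∈ J, mm (Real.exp (-(Real.pi / (2 * c j) * (x j - (a j - κ))))) =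
        Complex.exp (((2 * AA J c (fun j => a j - κ) x : ℝ) : ℂ) * Complex.I) := by
      unfold AA
      rw [Finset.mul_sum, Complex.ofReal_sum, Finset.sum_mul, Complex.exp_sum]
      exact Finset.prod_congr rfl fun j _ => (mm_exp _).symm
    rw [h1, hκ, Complex.exp_mul_I, ← Complex.ofReal_cos, ← Complex.ofReal_sin]
    have h2 : 2 * (Real.pi / 4) = Real.pi / 2 := by ring
    rw [h2, Real.cos_pi_div_two]
    simp

end Pool.Agent.TH644.QT
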