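import Pool.Agent.TH644.QT.C

set_option autoImplicit false

open Set Filter Topology Pool.Agent.Helper140.TT

namespace Pool.Agent.TH644.QT

variable {n : ℕ}

/-- the Cayley transform -/
noncomputable def MM (e : ℂ) : ℂ := (1 + e * Complex.I) / (1 - e * Complex.I)

lemma MM_ofReal (s : ℝ) : MM (s : ℂ) = mm s := rfl

lemma MM_den {e : ℂ} (he : ‖e‖ < 1) : 1 - e * Complex.I ≠ 0 := by
  intro h
  have h1 : e * Complex.I = 1 := (sub_eq_zero.1 h).symm
  have h2 : ‖e * Complex.I‖ = 1 := by rw [h1]; simp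
  rw [norm_mul, Complex.norm_I, mul_one] at h2
  linarith

lemma MM_re (e : ℂ) : (MM e).re = (1 - ‖e‖ ^ 2) / Complex.normSq (1 - e * Complex.I) := by
  unfold MM
  rw [Complex.div_re, ← Complex.normSq_eq_norm_sq, Complex.normSq_apply e, ← add_div]
  congr 1
  simp
  ring

lemma MM_im (e : ℂ) : (MM e).im = 2 * e.re / Complex.normSq (1 - e * Complex.I) := by
  unfold MM
  rw [Complex.div_im, ← sub_div]
  congr 1
  simp
  ring

lemma MM_re_pos {e : ℂ} (he : ‖e‖ < 1) : 0 < (MM e).re := by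
  rw [MM_re]
  refine div_pos ?_ (Complex.normSq_pos.2 (MM_den he))
  have := norm_nonneg e
  nlinarith

lemma MM_slit {e : ℂ} (he : ‖e‖ < 1) : MM e ∈ Complex.slitPlane :=
  Complex.mem_slitPlane_iff.2 (Or.inl (MM_re_pos he))

lemma arg_MM_nonneg {e : ℂ} (he : 0 ≤ e.re) : 0 ≤ Complex.arg (MM e) := by
  rw [Complex.arg_nonneg_iff, MM_im]
  exact div_nonneg (by linarith) (Complex.normSq_nonneg _)

lemma arg_MM_side {e : ℂ} (h1 : ‖e‖ < 1) (he : 0 ≤ e.re) {ε : ℝ} (hε : 0 < ε)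
    (_ : ε ≤ Real.pi / 2) (h : 1 - ‖e‖ ^ 2 ≤ 2 * e.re * Real.sin ε) :
    Real.pi / 2 - ε ≤ Complex.arg (MM e) := by
  by_contra hcon
  push Not at hcon
  have h0 := arg_MM_nonneg he
  have h2 : Real.cos (Real.pi / 2 - ε) < Real.cos (Complex.arg (MM e)) :=
    Real.cos_lt_cos_of_nonneg_of_le_pi h0 (by have := Real.pi_pos; linarith) hcon
  have hne : MM e ≠ 0 := fun h3 => by
    have := MM_re_pos h1
    rw [h3] at this
    simp at this
  rw [Real.cos_pi_div_two_sub, Complex.cos_arg hne, lt_div_iff₀ (norm_pos_iff.2 hne)] at h2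
  have hs : 0 ≤ Real.sin ε := Real.sin_nonneg_of_nonneg_of_le_pi hε.le
    (by have := Real.pi_pos; linarith)
  have h3 : (MM e).re ≤ (MM e).im * Real.sin ε := by
    rw [MM_re, MM_im, div_mul_eq_mul_div]
    have := Complex.normSq_nonneg (1 - e * Complex.I)
    gcongr
  have h4 : (MM e).im ≤ ‖MM e‖ := (le_abs_self _).trans (Complex.abs_im_le_norm _)
  nlinarith

lemma arg_mm {s : ℝ} (hs : 0 < s) : Complex.arg (mm s) = 2 * Real.arctan s := by
  rw [← mm_exp, Complex.exp_mul_I]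
  have h1 := Real.arctan_lt_pi_div_two s
  have h2 : 0 < Real.arctan s := Real.arctan_pos.2 hs
  refine Complex.arg_cos_add_sin_mul_I ⟨?_, ?_⟩
  · linarith [Real.pi_pos]
  · linarith

/-- the exponential -/
noncomputable def ee (c a : ℝ) (z : ℂ) : ℂ :=
  Complex.exp (((-(Real.pi / (2 * c)) : ℝ) : ℂ) * (z - (a : ℂ)))

lemma ee_norm (c a : ℝ) (z : ℂ) : ‖ee c a z‖ = Real.exp (-(Real.pi / (2 * c)) * (z.re - a)) := by
  unfold ee
  rw [Complex.norm_exp, Complex.re_ofReal_mul]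
  simp

lemma ee_re (c a : ℝ) (z : ℂ) : (ee c a z).re =
    Real.exp (-(Real.pi / (2 * c)) * (z.re - a)) * Real.cos (-(Real.pi / (2 * c)) * z.im) := by
  unfold ee
  rw [Complex.exp_re, Complex.re_ofReal_mul, Complex.im_ofReal_mul]
  simp

lemma ee_norm_lt {c a : ℝ} (hc : 0 < c) {z : ℂ} (h : a < z.re) : ‖ee c a z‖ < 1 := by
  rw [ee_norm, Real.exp_lt_one_iff]
  have h1 : 0 < Real.pi / (2 * c) := by have := Real.pi_pos; positivity
  nlinarith

lemma ee_ofReal (c a x : ℝ) : ee c a (x : ℂ) =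
    ((Real.exp (-(Real.pi / (2 * c) * (x - a))) : ℝ) : ℂ) := by
  unfold ee
  rw [Complex.ofReal_exp]
  congr 1
  push_cast
  ring

/-- the lower bound for the cosine on the strip -/
lemma cos_strip {c t y : ℝ} (hc : 0 < c) (ht : 0 < t) (hy : |y| ≤ c) :
    Real.cos (Real.pi / (2 * (1 + t))) ≤ Real.cos (-(Real.pi / (2 * (c * (1 + t)))) * y) := by
  have hpi := Real.pi_pos
  rw [neg_mul, Real.cos_neg, ← Real.cos_abs (Real.pi / (2 * (c * (1 + t))) * y), abs_mul,
    abs_of_pos (by positivity)]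
  refine Real.cos_le_cos_of_nonneg_of_le_pi (by positivity) ?_ ?_
  · rw [div_le_iff₀ (by positivity)]
    nlinarith
  · calc Real.pi / (2 * (c * (1 + t))) * |y| ≤ Real.pi / (2 * (c * (1 + t))) * c := by gcongr
      _ = Real.pi / (2 * (1 + t)) := by field_simp

lemma cos_pos' {t : ℝ} (ht : 0 < t) : 0 < Real.cos (Real.pi / (2 * (1 + t))) := by
  have hpi := Real.pi_pos
  refine Real.cos_pos_of_mem_Ioo ⟨?_, ?_⟩
  · have : 0 < Real.pi / (2 * (1 + t)) := by positivity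
    linarith
  · rw [div_lt_div_iff₀ (by positivity) (by positivity)]
    nlinarith

end Pool.Agent.TH644.QT
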