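import Pool.Agent.TH644.QT.D

set_option autoImplicit false

open Set Filter Topology Pool.Agent.Helper140.TT

namespace Pool.Agent.TH644.QT

variable {n : ℕ}

/-- the choice of the first parameter -/
lemma exists_t (J : Finset (Fin n)) {c : Fin n → ℝ} (hc : ∀ j, 0 < c j) {a x : Fin n → ℝ}
    (hx : ∀ j ∈ J, a j < x j)
    (h : AA J c a x < Real.pi / 4) : ∃ t : ℝ, 0 < t ∧ (∀ j ∈ J, a j + t < x j) ∧
      AA J (fun j => c j * (1 + t)) (fun j => a j + t) x < Real.pi / 4 := by
  have h1 : Tendsto (fun t : ℝ => AA J (fun j => c j * (1 + t)) (fun j => a j + t) x) (𝓝 0)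
      (𝓝 (AA J c a x)) := by
    unfold AA
    refine tendsto_finsetSum _ fun j _ => ?_
    have h2 : ContinuousAt (fun t : ℝ => Real.pi / (2 * (c j * (1 + t))) * (x j - (a j + t))) 0 := by
      refine ContinuousAt.mul (ContinuousAt.div continuousAt_const (by fun_prop) ?_) (by fun_prop)
      have := hc j
      simp only [add_zero, mul_one]
      positivity
    have h3 : ContinuousAt (fun t : ℝ => Real.arctan (Real.exp (-(Real.pi / (2 * (c j * (1 + t))) *
        (x j - (a j + t)))))) 0 :=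
      Real.continuous_arctan.continuousAt.comp (Real.continuous_exp.continuousAt.comp h2.neg)
    have h4 := h3.tendsto
    simp only [add_zero, mul_one] at h4
    exact h4
  have e1 : ∀ᶠ t : ℝ in 𝓝[>] 0, AA J (fun j => c j * (1 + t)) (fun j => a j + t) x < Real.pi / 4 :=
    (h1.eventually (gt_mem_nhds h)).filter_mono nhdsWithin_le_nhds
  have e2 : ∀ᶠ t : ℝ in 𝓝[>] 0, ∀ j ∈ J, a j + t < x j := by
    rw [Finset.eventually_all]
    intro j hj
    have h5 : Tendsto (fun t : ℝ => a j + t) (𝓝 0) (𝓝 (a j)) := by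
      have : Continuous (fun t : ℝ => a j + t) := by fun_prop
      simpa using this.tendsto 0
    exact (h5.eventually (gt_mem_nhds (hx j hj))).filter_mono nhdsWithin_le_nhds
  obtain ⟨t, ⟨ht1, ht2⟩, ht3⟩ := ((e1.and e2).and self_mem_nhdsWithin).exists
  exact ⟨t, ht3, ht2, ht1⟩

/-- the choice of the second parameter -/
lemma exists_β (J : Finset (Fin n)) {c : Fin n → ℝ} {a x : Fin n → ℝ}
    (hx : ∀ j ∈ J, a j < x j)
    {κ : ℝ} (hκ : 0 < κ) : ∃ β : ℝ, 0 < β ∧ (∀ j ∈ J, a j + β < x j) ∧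
      ∀ j, 1 - Real.exp (-(Real.pi / (2 * c j)) * β) ^ 2 ≤
        2 * Real.exp (-(Real.pi / (2 * c j)) * β) * κ := by
  have e1 : ∀ᶠ β : ℝ in 𝓝[>] 0, ∀ j, 1 - Real.exp (-(Real.pi / (2 * c j)) * β) ^ 2 ≤
        2 * Real.exp (-(Real.pi / (2 * c j)) * β) * κ := by
    rw [eventually_all]
    intro j
    have h1 : Continuous (fun β : ℝ => 2 * Real.exp (-(Real.pi / (2 * c j)) * β) * κ -
        (1 - Real.exp (-(Real.pi / (2 * c j)) * β) ^ 2)) := by fun_prop
    have h2 := h1.tendsto 0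
    simp only [mul_zero, Real.exp_zero, mul_one, one_pow, sub_self, sub_zero] at h2
    have h3 := (h2.eventually (lt_mem_nhds (show (0 : ℝ) < 2 * κ by positivity))).filter_mono
      (nhdsWithin_le_nhds (s := Ioi (0 : ℝ)))
    filter_upwards [h3] with β hβ
    linarith
  have e2 : ∀ᶠ t : ℝ in 𝓝[>] 0, ∀ j ∈ J, a j + t < x j := by
    rw [Finset.eventually_all]
    intro j hj
    have h5 : Tendsto (fun t : ℝ => a j + t) (𝓝 0) (𝓝 (a j)) := by
      have : Continuous (fun t : ℝ => a j + t) := by fun_prop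
      simpa using this.tendsto 0
    exact (h5.eventually (gt_mem_nhds (hx j hj))).filter_mono nhdsWithin_le_nhds
  obtain ⟨t, ⟨ht1, ht2⟩, ht3⟩ := ((e1.and e2).and self_mem_nhdsWithin).exists
  exact ⟨t, ht3, ht2, ht1⟩

lemma norm_sq_le (y : Fin n → ℝ) : ‖y‖ ^ 2 ≤ ∑ j, y j ^ 2 := by
  have h1 : ‖y‖ ≤ Real.sqrt (∑ j, y j ^ 2) := by
    refine (pi_norm_le_iff_of_nonneg (Real.sqrt_nonneg _)).2 fun j => ?_
    rw [Real.norm_eq_abs]
    exact Real.abs_le_sqrt (Finset.single_le_sum (f := fun j => y j ^ 2) (fun j _ => sq_nonneg _)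
      (Finset.mem_univ j))
  calc ‖y‖ ^ 2 ≤ Real.sqrt (∑ j, y j ^ 2) ^ 2 := by gcongr
    _ = _ := Real.sq_sqrt (Finset.sum_nonneg fun j _ => sq_nonneg _)

theorem sepHol_of_lt (J : Finset (Fin n)) {c : Fin n → ℝ} (hc : ∀ j, 0 < c j) {a x : Fin n → ℝ}
    (hx : ∀ j ∈ J, a j < x j) (h : AA J c a x < Real.pi / 4) :
    x ∈ SepHol {x : Fin n → ℝ | ∀ j ∈ J, a j < x j} c := by
  have hpi := Real.pi_pos
  obtain ⟨t, ht, hxt, hS⟩ := exists_t J hc hx h
  obtain ⟨c', hc'⟩ : ∃ c', c' = fun j => c j * (1 + t) := ⟨_, rfl⟩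
  obtain ⟨a', ha'⟩ : ∃ a', a' = fun j => a j + t := ⟨_, rfl⟩
  rw [← hc', ← ha'] at hS
  have hcp : ∀ j, 0 < c' j := fun j => by
    rw [hc']
    have := hc j
    positivity
  have hxa : ∀ j ∈ J, a' j < x j := fun j hj => by rw [ha']; exact hxt j hj
  have haa : ∀ j, a j < a' j := fun j => by rw [ha']; simpa using ht
  obtain ⟨ε, hε⟩ : ∃ ε, ε = Real.pi / 4 - AA J c' a' x := ⟨_, rfl⟩
  have hε0 : 0 < ε := by linarith
  have hAA0 : 0 ≤ AA J c' a' x := Finset.sum_nonneg fun j _ =>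
    Real.arctan_nonneg.2 (Real.exp_pos _).le
  have hε2 : ε ≤ Real.pi / 4 := by linarith
  have hsin : 0 < Real.sin ε := Real.sin_pos_of_pos_of_lt_pi hε0 (by linarith)
  have hcos := cos_pos' ht
  obtain ⟨β, hβ, hxβ, hβ2⟩ := exists_β J (c := c') hxa (κ := Real.cos (Real.pi / (2 * (1 + t))) *
    Real.sin ε) (by positivity)
  obtain ⟨Q, hQ⟩ : ∃ Q, Q = ∑ j, x j ^ 2 + ∑ j, c j ^ 2 := ⟨_, rfl⟩
  have hQ0 : 0 ≤ Q := by rw [hQ]; positivity
  obtain ⟨η, hη⟩ : ∃ η, η = ε / (Q + 1) := ⟨_, rfl⟩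
  have hη0 : 0 < η := by rw [hη]; positivity
  have hηQ : η * Q < ε := by
    rw [hη, div_mul_eq_mul_div, div_lt_iff₀ (by positivity)]
    nlinarith
  obtain ⟨T, hT⟩ : ∃ T, T = 1 + Real.pi / η + ∑ j, |x j| := ⟨_, rfl⟩
  have hsum0 : 0 ≤ ∑ j, |x j| := Finset.sum_nonneg fun j _ => abs_nonneg _
  have hT1 : 1 ≤ T := by
    rw [hT]
    have : 0 ≤ Real.pi / η := by positivity
    linarith
  have hTη : Real.pi ≤ η * T ^ 2 := by
    have h1 : Real.pi / η ≤ T := by rw [hT]; linarith
    have h2 : T ≤ T ^ 2 := by nlinarith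
    have h3 : Real.pi / η ≤ T ^ 2 := h1.trans h2
    rw [div_le_iff₀ hη0] at h3
    linarith
  have hxT : ‖x‖ < T := by
    have h1 : ‖x‖ ≤ ∑ j, |x j| := by
      refine (pi_norm_le_iff_of_nonneg hsum0).2 fun j => ?_
      exact Finset.single_le_sum (f := fun j => |x j|) (fun _ _ => abs_nonneg _)
        (Finset.mem_univ j)
    have h3 : 0 ≤ Real.pi / η := by positivity
    rw [hT]
    linarith
  let W : Set (Fin n → ℝ) := {y | ∀ j ∈ J, a' j + β < y j} ∩ Metric.ball 0 T
  have hWo : IsOpen W := (isOpen_Om J fun j => a' j + β).inter Metric.isOpen_ball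
  have hcl1 : IsClosed {y : Fin n → ℝ | ∀ j ∈ J, a' j + β ≤ y j} := by
    have : {y : Fin n → ℝ | ∀ j ∈ J, a' j + β ≤ y j} =
        ⋂ j ∈ J, {y : Fin n → ℝ | a' j + β ≤ y j} := by
      ext y
      simp
    rw [this]
    exact isClosed_biInter fun j _ => isClosed_le continuous_const (continuous_apply j)
  have hWcl : closure W ⊆ {y : Fin n → ℝ | ∀ j ∈ J, a' j + β ≤ y j} ∩ Metric.closedBall 0 T := by
    refine closure_minimal ?_ (hcl1.inter Metric.isClosed_closedBall)
    exact fun y hy => ⟨fun j hj => (hy.1 j hj).le, Metric.ball_subset_closedBall hy.2⟩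
  have hWb : Bornology.IsBounded W := Metric.isBounded_ball.subset inter_subset_right
  let N : Set (Fin n → ℂ) := {z | ∀ j ∈ J, a' j < (z j).re}
  have hNo : IsOpen N := by
    have : N = ⋂ j ∈ J, {z : Fin n → ℂ | a' j < (z j).re} := by
      ext y
      simp [N]
    rw [this]
    exact isOpen_biInter_finset fun j _ => isOpen_lt continuous_const
      (Complex.continuous_re.comp (continuous_apply j))
  let φ : (Fin n → ℂ) → ℂ := fun z => Complex.exp (Complex.I *
    (∑ j ∈ J, Complex.log (MM (ee (c' j) (a' j) (z j)))) - (η : ℂ) * ∑ j, z j ^ 2)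
  have hφ : ∀ z, ‖φ z‖ = Real.exp (-(∑ j ∈ J, Complex.arg (MM (ee (c' j) (a' j) (z j)))) -
      η * ∑ j, ((z j).re ^ 2 - (z j).im ^ 2)) := by
    intro z
    simp only [φ]
    rw [Complex.norm_exp, Complex.sub_re, Complex.I_mul_re, Complex.re_ofReal_mul,
      Complex.im_sum, Complex.re_sum]
    have e1 : ∀ j, (Complex.log (MM (ee (c' j) (a' j) (z j)))).im =
        Complex.arg (MM (ee (c' j) (a' j) (z j))) := fun j => Complex.log_im _
    have e2 : ∀ j, (z j ^ 2).re = (z j).re ^ 2 - (z j).im ^ 2 := fun j => by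
      rw [sq, Complex.mul_re]
      ring
    simp only [e1, e2]
  have hNx : ∀ z ∈ N, ∀ j ∈ J, ‖ee (c' j) (a' j) (z j)‖ < 1 := fun z hz j hj =>
    ee_norm_lt (hcp j) (hz j hj)
  refine ⟨W, hWo, hWb, ?_, ?_, N, φ, hNo, ?_, ?_, ?_⟩
  · intro y hy j hj
    have h1 := (hWcl hy).1 j hj
    have h2 := haa j
    linarith
  · exact ⟨fun j hj => hxβ j hj, by rw [mem_ball_zero_iff]; exact hxT⟩
  · intro z hz j hj
    have h1 := (hWcl hz.1).1 j hj
    linarith
  · intro z hz
    refine DifferentiableAt.differentiableWithinAt ?_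
    simp only [φ]
    refine DifferentiableAt.cexp (DifferentiableAt.sub (DifferentiableAt.const_mul ?_ _)
      (DifferentiableAt.const_mul ?_ _))
    · refine DifferentiableAt.fun_sum fun j hj => ?_
      have h1 : DifferentiableAt ℂ (fun w : ℂ => ee (c' j) (a' j) w) (z j) := by
        unfold ee
        fun_prop
      have h3 : DifferentiableAt ℂ (fun w : ℂ => 1 + ee (c' j) (a' j) w * Complex.I) (z j) :=
        (h1.mul_const _).const_add _
      have h4 : DifferentiableAt ℂ (fun w : ℂ => 1 - ee (c' j) (a' j) w * Complex.I) (z j) :=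
        (h1.mul_const _).const_sub _
      have h5 : DifferentiableAt ℂ (fun w : ℂ =>
          (1 + ee (c' j) (a' j) w * Complex.I) / (1 - ee (c' j) (a' j) w * Complex.I)) (z j) := by
        refine DifferentiableAt.fun_div h3 h4 ?_
        exact MM_den (hNx z hz j hj)
      have h2 : DifferentiableAt ℂ (fun w : ℂ => MM (ee (c' j) (a' j) w)) (z j) := h5
      have h6 : DifferentiableAt ℂ (fun w : ℂ => Complex.log (MM (ee (c' j) (a' j) w))) (z j) :=
        h2.clog (MM_slit (hNx z hz j hj))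
      exact DifferentiableAt.comp (g := fun w : ℂ => Complex.log (MM (ee (c' j) (a' j) w))) z h6
        (differentiableAt_apply j z)
    · fun_prop
  · intro z hz
    have hzc := hWcl (frontier_subset_closure hz.1)
    have hzre : ∀ j ∈ J, a' j + β ≤ (z j).re := fun j hj => hzc.1 j hj
    have hzN : z ∈ N := fun j hj => by have := hzre j hj; linarith
    have hnotW : (fun j => (z j).re) ∉ W := by
      have h1 := hz.1
      rw [hWo.frontier_eq] at h1
      exact h1.2
    have hcosz : ∀ j, Real.cos (Real.pi / (2 * (1 + t))) ≤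
        Real.cos (-(Real.pi / (2 * c' j)) * (z j).im) := by
      intro j
      rw [hc']
      exact cos_strip (hc j) ht (hz.2 j)
    have here : ∀ j, 0 ≤ (ee (c' j) (a' j) (z j)).re := by
      intro j
      rw [ee_re]
      have h1 := hcosz j
      have h2 : 0 ≤ Real.cos (-(Real.pi / (2 * c' j)) * (z j).im) := by linarith
      positivity
    have harg0 : ∀ j, 0 ≤ Complex.arg (MM (ee (c' j) (a' j) (z j))) := fun j =>
      arg_MM_nonneg (here j)
    -- the value at `x`
    have hvx : ‖φ (fun j => (x j : ℂ))‖ = Real.exp (-(2 * AA J c' a' x) - η * ∑ j, x j ^ 2) := by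
      rw [hφ]
      congr 2
      · congr 1
        unfold AA
        rw [Finset.mul_sum]
        refine Finset.sum_congr rfl fun j _ => ?_
        rw [ee_ofReal, MM_ofReal, arg_mm (Real.exp_pos _)]
      · simp
    rw [hvx, hφ]
    refine Real.exp_lt_exp.2 ?_
    have him : ∑ j, (z j).im ^ 2 ≤ ∑ j, c j ^ 2 := by
      refine Finset.sum_le_sum fun j _ => ?_
      rw [← sq_abs]
      have := hz.2 j
      gcongr
    have hsplit : ∑ j, ((z j).re ^ 2 - (z j).im ^ 2) = ∑ j, (z j).re ^ 2 - ∑ j, (z j).im ^ 2 :=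
      Finset.sum_sub_distrib _ _
    have hre0 : 0 ≤ ∑ j, (z j).re ^ 2 := by positivity
    have hkey : η * ∑ j, x j ^ 2 + η * ∑ j, c j ^ 2 < ε := by
      rw [← mul_add, ← hQ]
      exact hηQ
    have hηim : η * ∑ j, (z j).im ^ 2 ≤ η * ∑ j, c j ^ 2 := by gcongr
    rw [hsplit, mul_sub]
    -- which side
    have hside : (∃ k ∈ J, (z k).re = a' k + β) ∨ T ≤ ‖(fun j => (z j).re : Fin n → ℝ)‖ := by
      by_contra hcon
      push Not at hcon
      refine hnotW ⟨fun k hk => lt_of_le_of_ne (hzre k hk) (hcon.1 k hk).symm, ?_⟩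
      rw [mem_ball_zero_iff]
      exact hcon.2
    rcases hside with ⟨k, hkJ, hk⟩ | hk
    · -- near side
      have h1 : Real.pi / 2 - ε ≤ Complex.arg (MM (ee (c' k) (a' k) (z k))) := by
        refine arg_MM_side (hNx z hzN k hkJ) (here k) hε0 (by linarith) ?_
        rw [ee_norm, ee_re, hk]
        have h2 : a' k + β - a' k = β := by ring
        rw [h2]
        refine (hβ2 k).trans ?_
        have h3 := hcosz k
        have h4 := Real.exp_pos (-(Real.pi / (2 * c' k)) * β)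
        calc 2 * Real.exp (-(Real.pi / (2 * c' k)) * β) *
              (Real.cos (Real.pi / (2 * (1 + t))) * Real.sin ε)
            ≤ 2 * Real.exp (-(Real.pi / (2 * c' k)) * β) *
              (Real.cos (-(Real.pi / (2 * c' k)) * (z k).im) * Real.sin ε) := by gcongr
          _ = _ := by ring
      have h5 : Complex.arg (MM (ee (c' k) (a' k) (z k))) ≤
          ∑ j ∈ J, Complex.arg (MM (ee (c' j) (a' j) (z j))) :=
        Finset.single_le_sum (f := fun j => Complex.arg (MM (ee (c' j) (a' j) (z j))))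
          (fun j _ => harg0 j) hkJ
      have h6 : 0 ≤ η * ∑ j, (z j).re ^ 2 := by positivity
      linarith
    · -- far side
      have h5 : 0 ≤ ∑ j ∈ J, Complex.arg (MM (ee (c' j) (a' j) (z j))) :=
        Finset.sum_nonneg fun j _ => harg0 j
      have h6 : T ^ 2 ≤ ∑ j, (z j).re ^ 2 := by
        have h8 := norm_sq_le (fun j => (z j).re : Fin n → ℝ)
        have h9 : T ^ 2 ≤ ‖(fun j => (z j).re : Fin n → ℝ)‖ ^ 2 := by gcongr
        exact h9.trans h8
      have h7 : η * T ^ 2 ≤ η * ∑ j, (z j).re ^ 2 := by gcongr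
      linarith

end Pool.Agent.TH644.QT
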