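import Pool.Agent.Helper140.TT11
import Pool.Agent.TH644.QT.E

set_option autoImplicit false

open Set Filter Topology Pool.Agent.Helper140.TT

namespace Pool.Agent.TH644.QT

variable {n : ℕ}

lemma AA_lt_of_interior (J : Finset (Fin n)) {c a x : Fin n → ℝ} (hc : ∀ j, 0 < c j)
    (h : x ∈ interior {x | AA J c a x ≤ Real.pi / 4}) : AA J c a x < Real.pi / 4 := by
  have hpi := Real.pi_pos
  rcases J.eq_empty_or_nonempty with hJ | hJ
  · subst hJ
    simp only [AA, Finset.sum_empty]
    positivity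
  obtain ⟨ε, hε, hball⟩ := Metric.isOpen_iff.1 isOpen_interior x h
  have hy : (fun j => x j - ε / 2) ∈ Metric.ball x ε := by
    rw [Metric.mem_ball, dist_pi_lt_iff hε]
    intro i
    rw [Real.dist_eq]
    have : x i - ε / 2 - x i = -(ε / 2) := by ring
    rw [this, abs_neg, abs_of_pos (by positivity)]
    linarith
  have h1 : AA J c a (fun j => x j - ε / 2) ≤ Real.pi / 4 := interior_subset (s := {x : Fin n → ℝ | AA J c a x ≤ Real.pi / 4}) (hball hy)
  refine lt_of_lt_of_le ?_ h1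
  unfold AA
  refine Finset.sum_lt_sum_of_nonempty hJ fun j _ => ?_
  refine Real.arctan_strictMono (Real.exp_lt_exp.2 (neg_lt_neg ?_))
  have h2 := hc j
  have h3 : 0 < Real.pi / (2 * c j) := by positivity
  refine mul_lt_mul_of_pos_left ?_ h3
  linarith

theorem U_orthant (J : Finset (Fin n)) {c : Fin n → ℝ} (hc : ∀ j, 0 < c j) (a : Fin n → ℝ) :
    U {x : Fin n → ℝ | ∀ j ∈ J, a j < x j} c =
      {x : Fin n → ℝ | (∀ j ∈ J, a j < x j) ∧
        ∑ j ∈ J, Real.arctan (Real.exp (-(Real.pi / (2 * c j) * (x j - a j)))) < Real.pi / 4} := by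
  have hΩ := isOpen_Om J a
  have hconv : Convex ℝ {x : Fin n → ℝ | ∀ j ∈ J, a j < x j} := by
    intro x hx y hy s t hs ht hst j hj
    have h1 := hx j hj
    have h2 := hy j hj
    simp only [Pi.add_apply, Pi.smul_apply, smul_eq_mul]
    rcases hs.eq_or_lt with h0 | h0
    · have : t = 1 := by linarith
      subst this
      rw [← h0]
      linarith
    · have h3 : s * a j < s * x j := mul_lt_mul_of_pos_left h1 h0
      have h4 : t * a j ≤ t * y j := mul_le_mul_of_nonneg_left h2.le ht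
      have h5 : a j = s * a j + t * a j := by rw [← add_mul, hst, one_mul]
      linarith
  rw [U_eq_convex hΩ hconv hc]
  have hcl : closure (SepPoly {x : Fin n → ℝ | ∀ j ∈ J, a j < x j} c) ⊆
      {x | AA J c a x ≤ Real.pi / 4} :=
    closure_minimal (sepPoly_le J hc a) (isClosed_le (continuous_AA J c a) continuous_const)
  refine Subset.antisymm ?_ ?_
  · rintro x ⟨hx1, hx2⟩
    exact ⟨hx1, AA_lt_of_interior J hc (interior_mono hcl hx2)⟩
  · rintro x ⟨hx1, hx2⟩
    refine (U_eq_convex hΩ hconv hc ▸ subset_U_of_sepHol hΩ hc) ⟨hx1, ?_⟩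
    have hopen : IsOpen {y : Fin n → ℝ | (∀ j ∈ J, a j < y j) ∧ AA J c a y < Real.pi / 4} :=
      hΩ.inter (isOpen_lt (continuous_AA J c a) continuous_const)
    refine mem_interior.2 ⟨_, ?_, hopen, ⟨hx1, hx2⟩⟩
    exact fun y hy => subset_closure (sepHol_of_lt J hc hy.1 hy.2)

/-- for two coordinates: hyperbolic sines -/
lemma arctan_sinh {u v : ℝ} (hu : 0 < u) (hv : 0 < v) :
    Real.arctan (Real.exp (-u)) + Real.arctan (Real.exp (-v)) < Real.pi / 4 ↔
      1 < Real.sinh u * Real.sinh v := by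
  obtain ⟨s, hs⟩ : ∃ s, s = Real.exp (-u) := ⟨_, rfl⟩
  obtain ⟨t, ht⟩ : ∃ t, t = Real.exp (-v) := ⟨_, rfl⟩
  have hs0 : 0 < s := hs ▸ Real.exp_pos _
  have ht0 : 0 < t := ht ▸ Real.exp_pos _
  have hs1 : s < 1 := by rw [hs, Real.exp_lt_one_iff]; linarith
  have ht1 : t < 1 := by rw [ht, Real.exp_lt_one_iff]; linarith
  have hu' : Real.exp u = s⁻¹ := by rw [hs, Real.exp_neg, inv_inv]
  have hv' : Real.exp v = t⁻¹ := by rw [ht, Real.exp_neg, inv_inv]
  have hst : s * t < 1 := by nlinarith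
  rw [Real.sinh_eq, Real.sinh_eq, ← hs, ← ht, hu', hv', Real.arctan_add hst, ← Real.arctan_one,
    Real.arctan_strictMono.lt_iff_lt, div_lt_one (by linarith)]
  have e : (s⁻¹ - s) / 2 * ((t⁻¹ - t) / 2) = ((1 - s ^ 2) * (1 - t ^ 2)) / (4 * (s * t)) := by
    field_simp
    ring
  rw [e, lt_div_iff₀ (by positivity), one_mul]
  have key : (1 - s ^ 2) * (1 - t ^ 2) - 4 * (s * t) =
      (1 - (s + t + s * t)) * (1 + s + t - s * t) := by ring
  have hpos : 0 < 1 + s + t - s * t := by nlinarith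
  constructor
  · intro h
    have : 0 < (1 - (s + t + s * t)) * (1 + s + t - s * t) := mul_pos (by linarith) hpos
    linarith
  · intro h
    have h1 : 0 < (1 - (s + t + s * t)) * (1 + s + t - s * t) := by rw [← key]; linarith
    have := (mul_pos_iff_of_pos_right hpos).1 h1
    linarith

end Pool.Agent.TH644.QT
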